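import Mathlib

namespace Pool.Agent.Results.MP_fa43b0_al.Yes

/-- Lattice terms in variables from `α`. -/
inductive Term (α : Type) : Type
  | var : α → Term α
  | sup : Term α → Term α → Term α
  | inf : Term α → Term α → Term α

/-- Value of a term in a lattice. -/
def Term.eval {α L : Type} [Lattice L] (v : α → L) : Term α → L
  | .var a => v a
  | .sup s t => s.eval v ⊔ t.eval v
  | .inf s t => s.eval v ⊓ t.eval v

/-- Renaming of variables. -/
def Term.rename {α β : Type} (f : α → β) : Term α → Term β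
  | .var a => .var (f a)
  | .sup s t => .sup (s.rename f) (t.rename f)
  | .inf s t => .inf (s.rename f) (t.rename f)

/-- The identity `t ≈ s` holds in the lattice `L`. -/
def Holds (L : Type) [Lattice L] {α : Type} (t s : Term α) : Prop :=
  ∀ v : α → L, t.eval v = s.eval v

/-- `t` is symmetric: `t = t_σ` in the free lattice, that is, in every lattice. -/
def IsSymm {α : Type} (t : Term α) : Prop :=
  ∀ σ : Equiv.Perm α, ∀ (L : Type) [Lattice L], Holds L t (t.rename σ)

/-- A lattice identity in `n` variables. -/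
structure Identity : Type where
  n : ℕ
  lhs : Term (Fin n)
  rhs : Term (Fin n)

/-- `L` lies in the variety defined by the set `S` of identities. -/
def InVariety (S : Set Identity) (L : Type) [Lattice L] : Prop :=
  ∀ i ∈ S, Holds L i.lhs i.rhs

/-- The symmetric identities that hold in the variety defined by `S`. -/
def symPart (S : Set Identity) : Set Identity :=
  {i | IsSymm i.lhs ∧ IsSymm i.rhs ∧
    ∀ (K : Type) [Lattice K], InVariety S K → Holds K i.lhs i.rhs}

section aux

lemma eval_rename {α β L : Type} [Lattice L] (f : α → β) (v : β → L) (t : Term α) :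
    (t.rename f).eval v = t.eval (v ∘ f) := by
  induction t <;> simp [Term.rename, Term.eval, *]

lemma eval_mono {α L : Type} [Lattice L] {v w : α → L} (h : v ≤ w) (t : Term α) :
    t.eval v ≤ t.eval w := by
  induction t with
  | var a => exact h a
  | sup s t hs ht => exact sup_le_sup hs ht
  | inf s t hs ht => exact inf_le_inf hs ht

lemma mem_eval {α L : Type} [Lattice L] (I : α → Order.Ideal L) (t : Term α) (x : L) :
    x ∈ t.eval I ↔ ∃ a : α → L, (∀ i, a i ∈ I i) ∧ x ≤ t.eval a := by
  classical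
  induction t generalizing x with
  | var i =>
    refine ⟨fun h => ⟨Function.update (fun j => (I j).nonempty.some) i x, fun j => ?_, by
      simp [Term.eval]⟩, fun ⟨a, h1, h2⟩ => (I i).lower h2 (h1 i)⟩
    by_cases hj : j = i
    · subst hj; simpa [Term.eval] using h
    · simpa [hj] using (I j).nonempty.some_mem
  | sup s t hs ht =>
    simp only [Term.eval, Order.Ideal.mem_sup]
    constructor
    · rintro ⟨y, hy, z, hz, h⟩
      obtain ⟨a, ha, h1⟩ := (hs y).1 hy
      obtain ⟨b, hb, h2⟩ := (ht z).1 hz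
      exact ⟨a ⊔ b, fun i => Order.Ideal.sup_mem (ha i) (hb i), h.trans (sup_le_sup
        (h1.trans (eval_mono le_sup_left s)) (h2.trans (eval_mono le_sup_right t)))⟩
    · rintro ⟨a, ha, h⟩
      exact ⟨_, (hs _).2 ⟨a, ha, le_rfl⟩, _, (ht _).2 ⟨a, ha, le_rfl⟩, h⟩
  | inf s t hs ht =>
    simp only [Term.eval, Order.Ideal.mem_inf]
    constructor
    · rintro ⟨hy, hz⟩
      obtain ⟨a, ha, h1⟩ := (hs x).1 hy
      obtain ⟨b, hb, h2⟩ := (ht x).1 hz
      exact ⟨a ⊔ b, fun i => Order.Ideal.sup_mem (ha i) (hb i), le_inf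
        (h1.trans (eval_mono le_sup_left s)) (h2.trans (eval_mono le_sup_right t))⟩
    · rintro ⟨a, ha, h⟩
      exact ⟨(hs _).2 ⟨a, ha, h.trans inf_le_left⟩, (ht _).2 ⟨a, ha, h.trans inf_le_right⟩⟩

lemma holds_ideal {α L : Type} [Lattice L] {t s : Term α} (h : Holds L t s) :
    Holds (Order.Ideal L) t s := fun I => by
  ext x
  simp only [SetLike.mem_coe, mem_eval, h _]

lemma exists_cover {L : Type} [Lattice L] {c d : L} (hdc : d ≤ c) (h : ¬ c ≤ d) :
    ∃ J : Order.Ideal L, d ∈ J ∧ c ∉ J ∧ J ≤ Order.Ideal.principal c ∧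
      ∀ K, J ≤ K → K ≤ Order.Ideal.principal c → K ≤ J ∨ Order.Ideal.principal c ≤ K := by
  obtain ⟨J, -, hJ⟩ := zorn_le_nonempty₀
    {J : Order.Ideal L | d ∈ J ∧ c ∉ J ∧ J ≤ Order.Ideal.principal c}
    (fun C hC hch y hy => by
      refine ⟨⟨⟨⋃ J ∈ C, (J : Set L), ?_⟩, ?_, ?_⟩, ⟨?_, ?_, ?_⟩, ?_⟩
      · intro a b hab ha
        simp only [Set.mem_iUnion] at ha ⊢
        obtain ⟨J, hJ, ha⟩ := ha
        exact ⟨J, hJ, J.lower hab ha⟩
      · exact ⟨d, Set.mem_biUnion hy (hC hy).1⟩
      · intro a ha b hb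
        obtain ⟨J, hJ, ha⟩ := Set.mem_iUnion₂.1 ha
        obtain ⟨K, hK, hb⟩ := Set.mem_iUnion₂.1 hb
        rcases hch.total hJ hK with h1 | h1
        · exact ⟨a ⊔ b, Set.mem_biUnion hK (Order.Ideal.sup_mem (h1 ha) hb), le_sup_left,
            le_sup_right⟩
        · exact ⟨a ⊔ b, Set.mem_biUnion hJ (Order.Ideal.sup_mem ha (h1 hb)), le_sup_left,
            le_sup_right⟩
      · exact Set.mem_biUnion hy (hC hy).1
      · intro hc
        obtain ⟨J, hJ, hc⟩ := Set.mem_iUnion₂.1 hc
        exact (hC hJ).2.1 hc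
      · intro a ha
        obtain ⟨J, hJ, ha⟩ := Set.mem_iUnion₂.1 ha
        exact (hC hJ).2.2 ha
      · intro J hJ a ha
        exact Set.mem_biUnion hJ ha)
    (Order.Ideal.principal d) ⟨by simp, by simpa using h, by simpa using hdc⟩
  refine ⟨J, hJ.1.1, hJ.1.2.1, hJ.1.2.2, fun K h1 h2 => ?_⟩
  by_cases hc : c ∈ K
  · exact Or.inr (by simpa using hc)
  · exact Or.inl (hJ.2 ⟨h1 hJ.1.1, hc, h2⟩ h1)

/-- The threshold function: the join of the meets of all `k + 1` distinct entries. -/
noncomputable def thr {ι L : Type} [Fintype ι] [Lattice L] (k : ℕ) [Nonempty (Fin (k + 1) ↪ ι)]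
    (u : ι → L) : L := by
  classical
  exact Finset.univ.sup' Finset.univ_nonempty fun f : Fin (k + 1) ↪ ι =>
    Finset.univ.inf' Finset.univ_nonempty fun j => u (f j)

lemma thr_perm {ι L : Type} [Fintype ι] [Lattice L] (k : ℕ) [Nonempty (Fin (k + 1) ↪ ι)]
    (u : ι → L) (e : Equiv.Perm ι) : thr k (u ∘ e) = thr k u := by
  classical
  have : ∀ (u : ι → L) (e : Equiv.Perm ι), thr k (u ∘ e) ≤ thr k u := fun u e =>
    Finset.sup'_le _ _ fun f _ => Finset.le_sup'_of_le _ (Finset.mem_univ (f.trans e.toEmbedding)) le_rfl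
  refine le_antisymm (this u e) ?_
  have h := this (u ∘ e) e.symm
  rwa [Function.comp_assoc, Equiv.self_comp_symm, Function.comp_id] at h

lemma thr_le {ι L : Type} [Fintype ι] [Lattice L] (k : ℕ) [Nonempty (Fin (k + 1) ↪ ι)]
    (u : ι → L) (x : L) (B : Finset ι) (hB : B.card ≤ k) (h : ∀ i, i ∉ B → u i ≤ x) :
    thr k u ≤ x := by
  classical
  refine Finset.sup'_le _ _ fun f _ => ?_
  have : ∃ j, f j ∉ B := by
    by_contra hc
    push Not at hc
    have := Finset.card_le_card_of_injOn (s := Finset.univ) (t := B) f (fun j _ => hc j)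
      f.injective.injOn
    simp at this
    omega
  obtain ⟨j, hj⟩ := this
  exact Finset.inf'_le_of_le _ (Finset.mem_univ j) (h _ hj)

lemma le_thr {ι L : Type} [Fintype ι] [Lattice L] (k : ℕ) [Nonempty (Fin (k + 1) ↪ ι)]
    (u : ι → L) (x : L) (B : Finset ι) (hB : k + 1 ≤ B.card) (h : ∀ i ∈ B, x ≤ u i) :
    x ≤ thr k u := by
  classical
  obtain ⟨g⟩ : Nonempty (Fin (k + 1) ↪ B) :=
    Function.Embedding.nonempty_of_card_le (by simpa using hB)
  exact Finset.le_sup'_of_le _ (Finset.mem_univ (g.trans (Function.Embedding.subtype _)))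
    (Finset.le_inf' _ _ fun j _ => h _ (g j).2)

lemma term_sup' {α ι : Type} (s : Finset ι) (hs : s.Nonempty) (t : ι → Term α) :
    ∃ r : Term α, ∀ (L : Type) [Lattice L] (v : α → L),
      r.eval v = s.sup' hs fun i => (t i).eval v := by
  induction hs using Finset.Nonempty.cons_induction with
  | singleton a => exact ⟨t a, by simp⟩
  | cons a s h hs ih =>
    obtain ⟨r, hr⟩ := ih
    exact ⟨.sup (t a) r, fun L _ v => by simp [Term.eval, hr, Finset.sup'_cons hs]⟩

lemma term_inf' {α ι : Type} (s : Finset ι) (hs : s.Nonempty) (t : ι → Term α) :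
    ∃ r : Term α, ∀ (L : Type) [Lattice L] (v : α → L),
      r.eval v = s.inf' hs fun i => (t i).eval v := by
  induction hs using Finset.Nonempty.cons_induction with
  | singleton a => exact ⟨t a, by simp⟩
  | cons a s h hs ih =>
    obtain ⟨r, hr⟩ := ih
    exact ⟨.inf (t a) r, fun L _ v => by simp [Term.eval, hr, Finset.inf'_cons hs]⟩

lemma term_thr {α ι : Type} [Fintype ι] (k : ℕ) [Nonempty (Fin (k + 1) ↪ ι)] (t : ι → Term α) :
    ∃ r : Term α, ∀ (L : Type) [Lattice L] (v : α → L),
      r.eval v = thr k fun i => (t i).eval v := by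
  classical
  choose g hg using fun f : Fin (k + 1) ↪ ι =>
    term_inf' Finset.univ Finset.univ_nonempty fun j => t (f j)
  obtain ⟨r, hr⟩ := term_sup' Finset.univ Finset.univ_nonempty g
  exact ⟨r, fun L _ v => by rw [hr]; simp only [hg]; rfl⟩

lemma transfer {S : Set Identity} {L : Type} [Lattice L] (hL : InVariety (symPart S) L)
    {α : Type} [Fintype α] (t s : Term α)
    (ht : ∀ (σ : Equiv.Perm α) (K : Type) [Lattice K] (v : α → K), t.eval (v ∘ σ) = t.eval v)
    (hs : ∀ (σ : Equiv.Perm α) (K : Type) [Lattice K] (v : α → K), s.eval (v ∘ σ) = s.eval v)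
    (h : ∀ (K : Type) [Lattice K], InVariety S K → Holds K t s) : Holds L t s := by
  let e := Fintype.equivFin α
  have sy : ∀ t : Term α, (∀ (σ : Equiv.Perm α) (K : Type) [Lattice K] (v : α → K),
      t.eval (v ∘ σ) = t.eval v) → IsSymm (t.rename e) := fun t ht σ K _ v => by
    rw [eval_rename, eval_rename, eval_rename, ← ht (e.trans (σ.trans e.symm)) K (v ∘ e)]
    congr 1
    ext a; simp
  have := hL ⟨_, t.rename e, s.rename e⟩ ⟨sy t ht, sy s hs, fun K _ hK v => by
    rw [eval_rename, eval_rename]; exact h K hK _⟩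
  intro v
  have := this (v ∘ e.symm)
  rwa [eval_rename, eval_rename, Function.comp_assoc, Equiv.symm_comp_self, Function.comp_id] at this

lemma key {S : Set Identity} {L : Type} [Lattice L] (hL : InVariety (symPart S) L) {n : ℕ}
    (P Q : Term (Fin n)) (h : ∀ (K : Type) [Lattice K], InVariety S K → Holds K P Q)
    (hQP : ∀ v : Fin n → Order.Ideal L, Q.eval v ≤ P.eval v) (a : Fin n → L)
    (ha : Q.eval a ≤ P.eval a) : P.eval a ≤ Q.eval a := by
  classical
  by_contra hne
  obtain ⟨J, hd, hc, hJ, hcov⟩ := exists_cover ha hne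
  set c := Order.Ideal.principal (P.eval a) with hcdef
  let α := Fin n ⊕ Fin (n + 1) ⊕ Fin (n + 1)
  haveI : Nonempty (Fin (n + 1) ↪ α) := Function.Embedding.nonempty_of_card_le (by simp [α]; omega)
  haveI : Nonempty (Fin (2 * n + 1 + 1) ↪ α) :=
    Function.Embedding.nonempty_of_card_le (by simp [α]; omega)
  obtain ⟨C, hC⟩ := term_thr n (fun i : α => Term.var i)
  obtain ⟨D, hD⟩ := term_thr (2 * n + 1) (fun i : α => Term.var i)
  let y : α → Order.Ideal L :=
    Sum.elim (fun i => Order.Ideal.principal (a i)) (Sum.elim (fun _ => c) fun _ => J)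
  have hCy : C.eval y = c := by
    rw [hC]
    refine le_antisymm (thr_le n _ _ (Finset.univ.map Function.Embedding.inl) (by simp) ?_)
      (le_thr n _ _ ((Finset.univ.map Function.Embedding.inl).map Function.Embedding.inr)
        (by simp) ?_)
    · rintro (i | i | i) hi
      · exact absurd (Finset.mem_map_of_mem _ (Finset.mem_univ i)) hi
      · exact le_rfl
      · exact hJ
    · intro i hi
      simp only [Finset.mem_map, Finset.mem_univ, true_and] at hi
      obtain ⟨_, ⟨j, rfl⟩, rfl⟩ := hi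
      exact le_rfl
  have hDy : D.eval y = J := by
    rw [hD]
    refine le_antisymm (thr_le _ _ _
      (((Finset.univ.map Function.Embedding.inr).map Function.Embedding.inr)ᶜ) ?_ ?_)
      (le_thr _ _ _ (Finset.univ.map Function.Embedding.inr) (by simp; omega) ?_)
    · rw [Finset.card_compl]; simp [α]; omega
    · intro i hi
      simp only [Finset.mem_compl, not_not, Finset.mem_map, Finset.mem_univ, true_and] at hi
      obtain ⟨_, ⟨j, rfl⟩, rfl⟩ := hi
      exact le_rfl
    · intro i hi
      simp only [Finset.mem_map, Finset.mem_univ, true_and] at hi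
      obtain ⟨j | j, rfl⟩ := hi
      · exact hJ
      · exact le_rfl
  let U : Term (Fin n) → Equiv.Perm α → Term α := fun R σ =>
    .inf (.sup (R.rename fun i => σ (Sum.inl i)) D) C
  have hU : ∀ R σ (K : Type) [Lattice K] (v : α → K), (U R σ).eval v =
      (R.eval (fun i => v (σ (Sum.inl i))) ⊔ D.eval v) ⊓ C.eval v := fun R σ K _ v => by
    simp only [U, Term.eval, eval_rename]; rfl
  let B : Finset (Equiv.Perm α) := Finset.univ.filter fun σ => c ≤ (U P σ).eval y
  have h1 : (1 : Equiv.Perm α) ∈ B := by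
    simp only [B, Finset.mem_filter, Finset.mem_univ, true_and, hU, hCy]
    refine le_inf (le_sup_of_le_left ?_) le_rfl
    rw [hcdef, Order.Ideal.principal_le_iff, mem_eval]
    exact ⟨a, fun i => Order.Ideal.mem_principal_self, le_rfl⟩
  obtain ⟨k, hk⟩ : ∃ k, B.card = k + 1 :=
    Nat.exists_eq_succ_of_ne_zero (Finset.card_pos.2 ⟨_, h1⟩).ne'
  haveI : Nonempty (Fin (k + 1) ↪ Equiv.Perm α) := Function.Embedding.nonempty_of_card_le (by
    rw [Fintype.card_fin, ← hk]; exact Finset.card_le_univ _)
  obtain ⟨T, hT⟩ := term_thr k (U P)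
  obtain ⟨T', hT'⟩ := term_thr k (U Q)
  have sy : ∀ (R : Term (Fin n)) (σ : Equiv.Perm α) (K : Type) [Lattice K] (v : α → K),
      (thr k fun π => (U R π).eval (v ∘ σ)) = thr k fun π => (U R π).eval v := by
    intro R σ K _ v
    rw [← thr_perm k (fun π => (U R π).eval v) (Equiv.mulLeft σ)]
    congr 1
    ext π
    have c1 : C.eval (v ∘ σ) = C.eval v := by rw [hC, hC]; exact thr_perm n v σ
    have c2 : D.eval (v ∘ σ) = D.eval v := by rw [hD, hD]; exact thr_perm _ v σ
    simp only [Function.comp_apply, hU, c1, c2]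
    rfl
  have main := holds_ideal (transfer hL T T' (fun σ K _ v => by rw [hT, hT, sy])
    (fun σ K _ v => by rw [hT', hT', sy]) (fun K _ hK v => by
      rw [hT, hT']
      simp only [hU, h K hK _])) y
  have l1 : c ≤ T.eval y := by
    rw [hT]; exact le_thr k _ _ B hk.ge fun σ hσ => (Finset.mem_filter.1 hσ).2
  have l2 : T'.eval y ≤ J := by
    rw [hT']
    refine thr_le k _ _ (B.erase 1) (by rw [Finset.card_erase_of_mem h1]; omega) fun σ hσ => ?_
    by_cases h1' : σ = 1
    · subst h1'
      rw [hU, hDy]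
      refine inf_le_of_left_le (sup_le (fun x hx => ?_) le_rfl)
      obtain ⟨b, hb, hx⟩ := (mem_eval _ _ _).1 hx
      exact J.lower (hx.trans (eval_mono (fun i => hb i) Q)) hd
    · have h2 : ¬ c ≤ (U P σ).eval y := by simpa [B, h1'] using hσ
      have h3 : (U P σ).eval y ≤ J := (hcov _ (by
        rw [hU, hDy, hCy]; exact le_inf le_sup_right hJ) (by
        rw [hU, hCy]; exact inf_le_right)).resolve_right h2
      refine le_trans ?_ h3
      rw [hU, hU]
      exact inf_le_inf_right _ (sup_le_sup_right (hQP _) _)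
  exact hc ((l1.trans (main.le.trans l2)) Order.Ideal.mem_principal_self)

end aux

/-- Every lattice variety is defined by the symmetric identities that hold in it. -/
theorem result (S : Set Identity) (L : Type) [Lattice L] :
    InVariety S L ↔ InVariety (symPart S) L := by
  refine ⟨fun h i hi => hi.2.2 L h, fun h i hi a => le_antisymm ?_ ?_⟩
  · exact (key h i.lhs (.inf i.lhs i.rhs) (fun K _ hK v => by simp [Term.eval, hK i hi v])
      (fun v => inf_le_left) a inf_le_left).trans inf_le_right
  · exact (key h i.rhs (.inf i.lhs i.rhs) (fun K _ hK v => by simp [Term.eval, hK i hi v])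
      (fun v => inf_le_right) a inf_le_right).trans inf_le_left

end Pool.Agent.Results.MP_fa43b0_al.Yes
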